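import Pool.Agent.N728.QG.Def2
import Pool.Agent.N27.QG.FINL

set_option autoImplicit false

/-! # Project QH: from the mean value theorem to the final theorem, Liouville function, full range.
After the file of helper27 for project QG. -/

namespace Pool.Agent.N49.QH

open Finset

open Pool.Agent.N27.QG

/-- **FINL2** -/
theorem t_FINL2 (G : Polynomial ℤ) (c : ℤ) (hd : 1 ≤ G.natDegree) (hl : 0 < G.leadingCoeff)
    (h1 : Pool.Agent.N728.QG.S_MCL2 G c) : Pool.Agent.N728.QG.FinalL2 G c := by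
  obtain ⟨AU, hAU⟩ := upper G
  obtain ⟨AL, hAL⟩ := lower G hd hl
  intro ε K C2 hε
  obtain ⟨I, hI⟩ := exists_pow_lt_of_lt_one (show 0 < ε / 4 by positivity)
    (by norm_num : (1 / 2 : ℝ) < 1)
  obtain ⟨P, hP⟩ : ∃ P : ℕ, P = 2 ^ (I + 2) := ⟨_, rfl⟩
  have hP1 : 1 ≤ P := by rw [hP]; exact Nat.one_le_two_pow
  obtain ⟨K', hK'⟩ : ∃ K' : ℕ, K' = K * P + 3 * AU * K * P + 15 := ⟨_, rfl⟩
  obtain ⟨B1, hB1⟩ := h1 K' (C2 + 1) (ε / (2 * I + 2)) (1 / 2) (by omega) (by positivity) (by norm_num)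
  obtain ⟨Λ, hΛ⟩ : ∃ Λ : ℝ, Λ = 2 * Real.log P + 2 * 2 ^ C2 + P := ⟨_, rfl⟩
  refine ⟨P * (B1 + 2 * AL) + ⌈Real.exp Λ⌉₊ + ⌈16 / ε⌉₊ + 4, fun B hB T hT1 hT2 => ?_⟩
  have hPr : (1 : ℝ) ≤ P := by exact_mod_cast hP1
  have hlogP : 0 ≤ Real.log P := Real.log_nonneg hPr
  have hB4 : 4 ≤ B := by omega
  have hBr : (4 : ℝ) ≤ B := by exact_mod_cast hB4
  have hBΛ : Λ ≤ Real.log B := by
    rw [Real.le_log_iff_exp_le (by linarith)]
    refine (Nat.le_ceil _).trans ?_
    exact_mod_cast (by omega : ⌈Real.exp Λ⌉₊ ≤ B)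
  have h2C : (0 : ℝ) < 2 ^ C2 := by positivity
  have hlogB : 0 < Real.log B := by
    have : 0 < Λ := by rw [hΛ]; linarith
    linarith
  have hBε : 16 / ε ≤ B := by
    refine (Nat.le_ceil _).trans ?_
    exact_mod_cast (by omega : ⌈16 / ε⌉₊ ≤ B)
  have hBε' : 4 ≤ ε / 4 * B := by
    rw [div_le_iff₀ hε] at hBε
    linarith
  have hBP : P * (B1 + 2 * AL) ≤ B := by omega
  have hT0 : (0 : ℝ) ≤ T := Nat.cast_nonneg _
  -- the blocks
  have hblock : ∀ i ∈ range I, ∑ b ∈ Ioc (2 * (B / 2 ^ (i + 2) + 1)) (4 * (B / 2 ^ (i + 2) + 1)),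
      |∑ t ∈ Icc 1 T, Pool.Agent.N728.QG.lam (Pool.Agent.N728.QG.fp G b c t)| ≤
      ε / (2 * I + 2) * ((B : ℝ) * T) := by
    intro i hi
    obtain ⟨Bi, hBi⟩ : ∃ Bi : ℕ, Bi = B / 2 ^ (i + 2) + 1 := ⟨_, rfl⟩
    rw [← hBi]
    have hPi : 2 ^ (i + 2) ≤ P := by
      rw [hP]
      exact Nat.pow_le_pow_right (by norm_num) (by have := Finset.mem_range.1 hi; omega)
    have h2i : 4 ≤ 2 ^ (i + 2) := by
      calc 4 = 2 ^ 2 := by norm_num
        _ ≤ 2 ^ (i + 2) := Nat.pow_le_pow_right (by norm_num) (by omega)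
    have hBPBi : B ≤ P * Bi := by
      have h3 : B < 2 ^ (i + 2) * Bi := by
        rw [hBi]
        exact Nat.lt_mul_div_succ B (by positivity)
      exact h3.le.trans (Nat.mul_le_mul_right _ hPi)
    have hBiB : Bi ≤ B := by
      rw [hBi]
      have : B / 2 ^ (i + 2) ≤ B / 4 := Nat.div_le_div_left h2i (by norm_num)
      omega
    have hBi1 : B1 + 2 * AL ≤ Bi := by
      have h3 : P * (B1 + 2 * AL) ≤ P * Bi := hBP.trans hBPBi
      exact Nat.le_of_mul_le_mul_left h3 (by omega)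
    have hBi0 : 1 ≤ Bi := by rw [hBi]; exact Nat.le_add_left _ _
    have hBir : (1 : ℝ) ≤ Bi := by exact_mod_cast hBi0
    have hBBi : (B : ℝ) ≤ P * Bi := by exact_mod_cast hBPBi
    have hBiBr : (Bi : ℝ) ≤ B := by exact_mod_cast hBiB
    have hlog1 : Real.log B ≤ Real.log P + Real.log Bi := by
      rw [← Real.log_mul (by linarith) (by linarith)]
      exact Real.log_le_log (by linarith) hBBi
    have hlog2 : Real.log B ≤ 2 * Real.log Bi := by linarith
    have hlog3 : (2 : ℝ) ^ C2 ≤ Real.log Bi := by linarith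
    have hlog4 : Real.log Bi ≤ Real.log B := Real.log_le_log (by linarith) hBiBr
    have hlog5 : (P : ℝ) ≤ Real.log B := by linarith
    have hlogBi : 0 < Real.log Bi := by linarith
    have c1 : (Bi : ℝ) ≤ (T : ℝ) ^ G.natDegree * Real.log Bi ^ (C2 + 1) := by
      refine hBiBr.trans (hT1.trans ?_)
      apply mul_le_mul_of_nonneg_left _ (by positivity)
      calc Real.log B ^ C2 ≤ (2 * Real.log Bi) ^ C2 := pow_le_pow_left₀ hlogB.le hlog2 _
        _ = 2 ^ C2 * Real.log Bi ^ C2 := mul_pow _ _ _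
        _ ≤ Real.log Bi * Real.log Bi ^ C2 := mul_le_mul_of_nonneg_right hlog3 (by positivity)
        _ = Real.log Bi ^ (C2 + 1) := by ring
    have hTK : T ^ G.natDegree ≤ K * P * Bi := by
      refine hT2.trans ?_
      rw [mul_assoc]
      exact Nat.mul_le_mul_left _ hBPBi
    have c2 : T ^ G.natDegree ≤ K' * Bi := by
      refine hTK.trans (Nat.mul_le_mul_right _ ?_)
      rw [hK']
      nlinarith [Nat.zero_le (3 * AU * K * P)]
    have c4 : Pool.Agent.N728.QG.Rge G K' Bi T := by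
      intro u hu1 hu2
      constructor
      · have h3 := hAL u
        omega
      · have h3 := hAU u hu1
        have h4 : (u : ℤ) ^ G.natDegree ≤ (K : ℤ) * P * Bi := by
          have h5 : u ^ G.natDegree ≤ K * P * Bi := (Nat.pow_le_pow_left hu2 _).trans hTK
          exact_mod_cast h5
        have h6 : (AU : ℤ) * (u : ℤ) ^ G.natDegree ≤ AU * (K * P * Bi) :=
          mul_le_mul_of_nonneg_left h4 (Int.natCast_nonneg _)
        have h7 : (0 : ℤ) ≤ (K : ℤ) * P * Bi := by positivity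
        rw [hK']
        push_cast
        linarith
    have h8 := hB1 Bi (by omega) T c1 c2 c4
    refine le_trans (Finset.sum_le_sum_of_subset_of_nonneg ?_ fun b _ _ => abs_nonneg _)
      (h8.trans ?_)
    · intro b hb
      rw [mem_Ioc] at hb
      rw [mem_filter, mem_Ioc]
      refine ⟨⟨by omega, hb.2⟩, ?_⟩
      have h9 : (2 * Bi : ℝ) < b := by exact_mod_cast hb.1
      linarith
    apply mul_le_mul_of_nonneg_left _ (by positivity)
    exact mul_le_mul_of_nonneg_right hBiBr hT0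
  -- the first block
  have hone : ∀ b : ℕ, |∑ t ∈ Icc 1 T, Pool.Agent.N728.QG.lam (Pool.Agent.N728.QG.fp G b c t)| ≤
      T := by
    intro b
    refine (Finset.abs_sum_le_sum_abs _ _).trans ?_
    refine (Finset.sum_le_sum fun t _ => lam_le _).trans ?_
    simp
  have hfirst : ∑ b ∈ Icc 1 (4 * (B / 2 ^ (I + 2) + 1)),
      |∑ t ∈ Icc 1 T, Pool.Agent.N728.QG.lam (Pool.Agent.N728.QG.fp G b c t)| ≤
      ε / 2 * ((B : ℝ) * T) := by
    refine (Finset.sum_le_sum fun b _ => hone b).trans ?_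
    rw [Finset.sum_const, Nat.card_Icc, nsmul_eq_mul]
    have h3 : ((4 * (B / 2 ^ (I + 2) + 1) + 1 - 1 : ℕ) : ℝ) ≤ ε / 2 * B := by
      have h4 : ((B / 2 ^ (I + 2) : ℕ) : ℝ) ≤ B / 2 ^ (I + 2) := by
        have := @Nat.cast_div_le ℝ _ _ _ B (2 ^ (I + 2))
        push_cast at this
        exact this
      have h5 : (4 * (B / 2 ^ (I + 2) + 1) + 1 - 1 : ℕ) = 4 * (B / 2 ^ (I + 2)) + 4 := by omega
      rw [h5]
      push_cast
      have h6 : 4 * ((B : ℝ) / 2 ^ (I + 2)) = (1 / 2) ^ I * B := by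
        rw [pow_add, one_div, inv_pow]
        field_simp
        ring
      have h7 : (1 / 2 : ℝ) ^ I * B ≤ ε / 4 * B :=
        mul_le_mul_of_nonneg_right hI.le (by linarith)
      linarith
    calc ((4 * (B / 2 ^ (I + 2) + 1) + 1 - 1 : ℕ) : ℝ) * T ≤ ε / 2 * B * T :=
          mul_le_mul_of_nonneg_right h3 hT0
      _ = ε / 2 * (B * T) := by ring
  refine (dyadic (fun b => |∑ t ∈ Icc 1 T,
    Pool.Agent.N728.QG.lam (Pool.Agent.N728.QG.fp G b c t)|) (fun b => abs_nonneg _) B I).trans ?_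
  refine (add_le_add hfirst (Finset.sum_le_sum hblock)).trans ?_
  rw [Finset.sum_const, Finset.card_range, nsmul_eq_mul]
  have h9 : (I : ℝ) * (ε / (2 * I + 2) * (B * T)) ≤ ε / 2 * (B * T) := by
    have h10 : (I : ℝ) * (ε / (2 * I + 2)) ≤ ε / 2 := by
      rw [mul_div_assoc', div_le_div_iff₀ (by positivity) (by norm_num)]
      nlinarith
    calc (I : ℝ) * (ε / (2 * I + 2) * (B * T)) = (I : ℝ) * (ε / (2 * I + 2)) * (B * T) := by ring
      _ ≤ ε / 2 * (B * T) := mul_le_mul_of_nonneg_right h10 (by positivity)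
  linarith

end Pool.Agent.N49.QH
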